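import Pool.Agent.TH613.PY.Main

/-!
# The parity conjecture over number fields: fields with at most one involution

`k` is a number field, `Ext k` the type of algebraic extensions of `k` in an algebraic closure of
`k`, `Fin F` says that `F` is finite over `k`, `Aut F` is the group of automorphisms of `F` over `k`,
and `fix L B` is the fixed field in `L` of a group `B` of automorphisms.

`ParityLike P` says that the property `P` of finite extensions of `k` behaves like
`P F : (-1) ^ rk(E / F) = w(E / F)` for an elliptic curve (or an abelian variety) `E` over `k`:
* `odd`: if `L / L^B` is Galois of odd degree, then `P L ↔ P (L^B)`;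
* `cyclic`: if `L / L^B` is cyclic of degree 4, with quadratic subextension `L^C`, then `P (L^C)`
  implies `P L`;
* `klein`: if `L / L^B` has group `C₂ × C₂`, and `P` holds for `L^B` and the three fields between,
  then `P L`.
These facts follow from `rk(E / L) = ∑ dim(ρ) m(ρ)`, `w(E / L) = ∏ w(E, ρ) ^ dim(ρ)` (`ρ` irreducible
complex representations of `B`), and `m(ρ*) = m(ρ)`, `w(E, ρ) w(E, ρ*) = 1` if `ρ` is not
isomorphic to its dual `ρ*`.

Theorem. `P` holds for all finite extensions of `k` if and only if it holds for all finite `F / k`
with `|Aut(F / k)| ≤ 2` such that no proper subfield `F'` of `F` containing `k` has a Galois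
extension of odd degree containing `F`.
-/

set_option autoImplicit false

namespace Pool.Agent.Results.MP_02f36d_nt.AtMostOneInvolution

open Pool.Agent.TH613.PY

/-- The parity conjecture for `E / k` over all finite extensions of `k` follows from its case for the
finite extensions `F` with `|Aut(F / k)| ≤ 2` which lie in no Galois extension of odd degree of a
proper subfield. -/
theorem result (k : Type) [Field k] [NumberField k] (P : Ext k → Prop) (h : ParityLike P) :
    (∀ F : Ext k, Fin F → P F) ↔
      ∀ F : Ext k, Fin F → Nat.card (Aut F) ≤ 2 → ¬ OddOverSubfield F → P F :=
  main h

end Pool.Agent.Results.MP_02f36d_nt.AtMostOneInvolution
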