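import Pool.Agent.TH487.Par.Basic

/-!
The parity conjecture for elliptic curves that are isogenous to their Galois conjugates.
-/

set_option autoImplicit false

namespace Pool.Agent.Results.MP_02f36d_nt.KCurves

open Module Pool.Agent.TH487.Par

/-- An elliptic curve `E` without complex multiplication over `K`, a Galois extension of number
fields `K/k` with group `G`, and for every `s ∈ G` an isogeny `m_s : E^s → E` defined over `K`.
`c s t = m_s · s(m_t) · m_{st}⁻¹ ∈ ℚˣ`, `d s = deg m_s`, `rank` is the rank of `E(K)`;
`A = Res_{K/k} E` is isogenous over `k` to `∏ B ^ (n B)`, `B` running through the simple abelian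
varieties over `k` of the theory `X`; `rootNumber = w(E/K)`; `IsBaseChange`: `E` is isogenous over
`K` to an elliptic curve defined over `k`. -/
structure KCurve {R : RootNumbers} (X : AbelianVarieties R) where
  G : Type
  [group : Group G]
  c : G → G → ℚˣ
  d : G → ℚˣ
  rank : ℕ
  n : X.Simple →₀ ℕ
  rootNumber : ℂ
  IsBaseChange : Prop

attribute [instance] KCurve.group

variable {R : RootNumbers} {X : AbelianVarieties R}

/-- The degrees of `m_s · s(m_t)` and `c s t · m_{st}` agree. -/
def KCurve.Degrees (E : KCurve X) : Prop := ∀ s t, E.d s * E.d t = E.c s t ^ 2 * E.d (s * t)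

/-- The maps `x ↦ m_s (s x)` of `E(K) ⊗ ℚ` make it a module over the twisted group algebra. -/
def KCurve.Semilinear (E : KCurve X) : Prop := TwistedModule E.c E.rank

/-- The root number of `E/K` is that of `A/k` (inductivity). -/
def KCurve.Restriction (E : KCurve X) : Prop :=
  E.rootNumber = R.W (E.n.sum fun B k => k • X.sys B)

/-- Ribet: `End⁰_k(A)` is the twisted group algebra of `G`; its simple components are the matrix
algebras of size `n B` over `End⁰_k(B)`, and are modules over it. -/
def KCurve.EndomorphismAlgebra (E : KCurve X) : Prop :=
  ∀ B ∈ E.n.support, TwistedModule E.c (E.n B ^ 2 * X.endDim B)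

/-- Weil descent in the isogeny category (Ribet, Elkies): if `c` is a coboundary, `E` is isogenous
over `K` to an elliptic curve defined over `k`. -/
def KCurve.Descent (E : KCurve X) : Prop := IsCoboundary E.c → E.IsBaseChange

/-- **Parity for `k`-curves.**  Let `K/k` be a Galois extension of number fields and `E/K` an
elliptic curve without complex multiplication which is isogenous over `K` to all its conjugates
over `k`.  Then `E` is isogenous over `K` to a curve defined over `k`, or the rank of `E(K)` is even
and `w(E/K) = 1`; in particular the parity conjecture holds for `E/K` in the second case. -/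
theorem result (R : RootNumbers) (hR : R.Deligne) (hG : R.Rohrlich) (X : AbelianVarieties R)
    (hA : X.Albert) (hT : X.TateModules) (E : KCurve X) (h1 : E.Degrees) (h2 : E.Semilinear)
    (h3 : E.Restriction) (h4 : E.EndomorphismAlgebra) (h5 : E.Descent) :
    E.IsBaseChange ∨
      (Even E.rank ∧ E.rootNumber = 1 ∧ (-1 : ℂ) ^ E.rank = E.rootNumber) := by
  by_cases hb : E.IsBaseChange
  · exact Or.inl hb
  right
  have hc : ¬ IsCoboundary E.c := fun h => hb (h5 h)
  have he : Even E.rank := by
    by_contra h
    exact hc (coboundary E.c E.d h1 E.rank h2 (Nat.not_even_iff_odd.1 h))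
  have hw : E.rootNumber = 1 := by
    rw [h3]
    refine W_pow_even hR hG hA hT E.n fun B hB => ?_
    by_contra h
    exact hc (coboundary E.c E.d h1 _ (h4 B hB) (Nat.not_even_iff_odd.1 h))
  exact ⟨he, hw, by rw [hw, he.neg_one_pow]⟩

end Pool.Agent.Results.MP_02f36d_nt.KCurves
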