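import Pool.Agent.TH85.QE.Fin

open Pool.Agent.TH85.QE

namespace Pool.Agent.Results.MP_02f36d_nt.QuasiElementaryLevel

/-- (1) Let `L/K` be a finite Galois extension of number fields and `E/K` an elliptic curve. If the
parity conjecture holds for `E` over all intermediate fields `M` such that `Gal(L/M)` is
2-quasi-elementary without proper normal subgroups of odd index, then it holds for `E/K`.
(2) Let `P` be any property of elliptic curves over number fields that every `E/K` acquires over
some finite Galois extension. Then the parity conjecture for all elliptic curves over number fields
is equivalent to its case of those `E/K` which acquire `P` over a Galois extension `L/K` with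
2-quasi-elementary group without proper normal subgroups of odd index. -/
theorem result (w : Curve → ℤˣ) (hw : Facts rank w) :
    (∀ (X : Curve) (F : GalExt X),
      (∀ M : IntermediateField X.K F.L, QuasiElementary (F.above M).Gal →
        NoOddQuotient (F.above M).Gal → Parity rank w (F.mid M)) → Parity rank w X) ∧
    (∀ P : Curve → Prop, (∀ X, ∃ F : GalExt X, P F.top) →
      ((∀ X, Parity rank w X) ↔
      (∀ X, (∃ F : GalExt X, P F.top ∧ QuasiElementary F.Gal ∧ NoOddQuotient F.Gal) →
        Parity rank w X))) :=
  ⟨fun X F h => main1 hw X F h, fun P hP => main2 hw P hP⟩

end Pool.Agent.Results.MP_02f36d_nt.QuasiElementaryLevel
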