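import Mathlib
import Pool.Agent.TH995.Rad.Step

/-!
# The parity conjecture over number fields: radical extensions without automorphisms and with few
real places

`k` is a number field, `Ext k` the type of algebraic extensions of `k` in an algebraic closure `Ω` of
`k`, and `permChar F g` the number of `k`-embeddings `F → Ω` fixed by `g ∈ Gal(Ω / k)`, i.e. the value
at `g` of the character of the permutation representation `Ind_F 1` of `Gal(Ω / k)` on the embeddings.

A function `D` from the finite extensions of `k` to an abelian group is Brauer invariant if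
`∑ D(F_i) = ∑ D(F'_j)` for all finite families with `∑ Ind_{F_i} 1 = ∑ Ind_{F'_j} 1`. Examples for an
elliptic curve `E` over `k`:
* `D(F) = 0` or `1` in `ℤ / 2` according to whether `(-1)^rk(E / F) = w(E / F)` or not: the rank
  `rk(E / F) = ⟨Ind_F 1, E(L) ⊗ ℂ⟩` and the root number `w(E / F) = w(E / k, Ind_F 1)` depend on the
  permutation character only, and are additive resp. multiplicative in it; the same for
  `p^∞`-Selmer ranks;
* `D(F) = ord_{s = 1} L(E / F, s) - rk(E / F)` in `ℤ`, if these functions are meromorphic at `s = 1`.

Theorem. Let `D` be Brauer invariant with values in any abelian group, `φ` any function on the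
extensions of `k` and `ψ` any function on `ℕ`. Equivalent are:
1. `D(F) = 0` for all finite `F / k`;
2. `D(F) = 0` for all `F = F₀(s)` and `F = F₀(s, t)`, where `s ^ l` and `t ^ l` are of the form
   `2 ^ a * 3 ^ b`, `l ≥ φ(F₀)` is prime and `[F : F₀] = l` resp. `l ^ 2`;
3. `D(F) = 0` for all finite `F / k` such that the field `F` has no automorphism other than the
   identity and `[F : k] ≥ ψ(number of real embeddings of F)`;
4. `D(F) = 0` for all `F` as in 3 of the form `F = F₀(s)` or `F = F₀(s, t)`, where `s ^ l` and `t ^ l`
   are in `F₀`, `l ≥ φ(F₀)` is prime and `[F : F₀] = l` resp. `l ^ 2`.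

So the parity conjecture for `E` over all finite extensions of `k` is equivalent to its case for
fields without automorphisms (in particular, Galois over no proper subfield) and with arbitrarily
few real places in comparison with the degree; even those which are radical extensions of large
prime exponent suffice. The proof uses a relation between permutation characters of the Galois group
of `K(ζ_l, b^(1/l), c^(1/l))` over `K`:
`l · 1 = ∑ Ind_{K(s)} 1 - Ind_{K(b^(1/l), c^(1/l))} 1`, the sum over the `l + 1` extensions
`K(s)`, `s ^ l = c` or `s ^ l = b * c ^ j`, `0 ≤ j < l`, for two different primes `l`; for 3 and 4,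
`b` and `c` are integers of `K` which are divisible by prime ideals `Q` resp. `Q'` of degree one such
that no `σ b`, `σ c`, `σ ∈ Aut(K)`, is divisible by them except `b` by `Q` and `c` by `Q'`.
-/

set_option autoImplicit false

open NumberField

namespace Pool.Agent.Results.MP_02f36d_nt.RadicalExtensions

/-- The algebraic extensions of `k` in an algebraic closure of `k`. -/
abbrev Ext (k : Type) [Field k] := IntermediateField k (AlgebraicClosure k)

/-- The number of `k`-embeddings `F → Ω` fixed by `g`: the permutation character of `F` at `g`. -/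
noncomputable def permChar {k : Type} [Field k] (F : Ext k)
    (g : AlgebraicClosure k ≃ₐ[k] AlgebraicClosure k) : ℕ :=
  Nat.card {σ : F →ₐ[k] AlgebraicClosure k // ∀ x, g (σ x) = σ x}

/-- `D` is additive and depends on the permutation characters only: if the sums of the permutation
characters of two finite families of finite extensions of `k` are equal, then so are the sums of the
values of `D`. -/
def BrauerInvariant {k : Type} [Field k] {A : Type} [AddCommGroup A] (D : Ext k → A) : Prop :=
  ∀ s t : Multiset (Ext k), (∀ F ∈ s, FiniteDimensional k F) → (∀ F ∈ t, FiniteDimensional k F) →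
    (∀ g, (s.map fun F => permChar F g).sum = (t.map fun F => permChar F g).sum) →
    (s.map D).sum = (t.map D).sum

/-- `F = F₀(S)`, where `S` has one or two elements whose `l`-th powers are in `R`, and
`[F : F₀] = l ^ |S|`. -/
def IsRadicalExt {k : Type} [Field k] (l : ℕ) (R : Set (AlgebraicClosure k)) (F₀ F : Ext k) :
    Prop :=
  ∃ S : Finset (AlgebraicClosure k), (S.card = 1 ∨ S.card = 2) ∧ (∀ s ∈ S, s ^ l ∈ R) ∧
    F = (IntermediateField.adjoin F₀ (S : Set (AlgebraicClosure k))).restrictScalars k ∧
    Module.finrank k F = l ^ S.card * Module.finrank k F₀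

/-- The number of real embeddings of `F`. -/
noncomputable def realPlaces {k : Type} [Field k] (F : Ext k) : ℕ :=
  Nat.card {τ : F →+* ℂ // ComplexEmbedding.IsReal τ}

/-- The field `F` has no automorphism other than the identity. -/
def Rigid {k : Type} [Field k] (F : Ext k) : Prop :=
  ∀ (τ : F ≃+* F) (x : F), τ x = x

/-- An element of an abelian group killed by arbitrarily large primes is zero. -/
theorem eq_zero_of_large {A : Type} [AddCommGroup A] (x : A)
    (h : ∀ N : ℕ, ∃ l : ℕ, l.Prime ∧ N ≤ l ∧ l • x = 0) : x = 0 := by
  obtain ⟨l, hl, -, h1⟩ := h 0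
  obtain ⟨m, hm, hlm, h2⟩ := h (l + 1)
  have hco : Nat.Coprime l m := (Nat.coprime_primes hl hm).2 (by omega)
  have h3 : addOrderOf x ∣ 1 := by
    have := Nat.dvd_gcd (addOrderOf_dvd_of_nsmul_eq_zero h1) (addOrderOf_dvd_of_nsmul_eq_zero h2)
    rwa [hco.gcd_eq_one] at this
  exact AddMonoid.addOrderOf_eq_one_iff.1 (Nat.dvd_one.1 h3)

/-- **Theorem.** For a Brauer invariant function `D` on the finite extensions of `k` the following
are equivalent: `D` is zero; `D` is zero on the extensions `F₀(S)`, where the `l`-th powers of the
elements of `S` are integers `2 ^ a * 3 ^ b`, `l ≥ φ(F₀)`; `D` is zero on the fields `F` without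
automorphisms with `[F : k] ≥ ψ(number of real embeddings of F)`; `D` is zero on those of these
fields which are radical extensions `F₀(S)` of exponent `l ≥ φ(F₀)`. -/
theorem result (k : Type) [Field k] [NumberField k] (A : Type) [AddCommGroup A]
    (D : Ext k → A) (hD : BrauerInvariant D) (φ : Ext k → ℕ) (ψ : ℕ → ℕ) :
    List.TFAE [
      ∀ F : Ext k, FiniteDimensional k F → D F = 0,
      ∀ (F₀ F : Ext k) (l : ℕ), FiniteDimensional k F₀ → l.Prime → φ F₀ ≤ l →
        IsRadicalExt l {x | ∃ a b : ℕ, x = ((2 ^ a * 3 ^ b : ℕ) : AlgebraicClosure k)} F₀ F →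
        D F = 0,
      ∀ F : Ext k, FiniteDimensional k F → Rigid F → ψ (realPlaces F) ≤ Module.finrank k F →
        D F = 0,
      ∀ (F₀ F : Ext k) (l : ℕ), FiniteDimensional k F₀ → l.Prime → φ F₀ ≤ l →
        IsRadicalExt l (F₀ : Set (AlgebraicClosure k)) F₀ F → Rigid F →
        ψ (realPlaces F) ≤ Module.finrank k F → D F = 0] := by
  have hD' : Pool.Agent.TH995.Rad.BrauerInv D := hD
  have hfd : ∀ (l n : ℕ) (F₀ F : Ext k), FiniteDimensional k F₀ → l.Prime →
      Module.finrank k F = l ^ n * Module.finrank k F₀ → FiniteDimensional k F := by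
    intro l n F₀ F h0 hl h
    refine FiniteDimensional.of_finrank_pos ?_
    rw [h]
    have := hl.pos
    have : 0 < Module.finrank k F₀ := Module.finrank_pos
    positivity
  tfae_have 1 → 2 := by
    rintro H F₀ F l h0 hl - ⟨S, -, -, -, h⟩
    exact H F (hfd l _ F₀ F h0 hl h)
  tfae_have 1 → 3 := fun H F hF _ _ => H F hF
  tfae_have 2 → 1 := by
    intro H K hK
    refine eq_zero_of_large _ fun N => ?_
    obtain ⟨l, hl, hN, h⟩ := Pool.Agent.TH995.Rad.step hD' K hK (N + φ K) (by
      intro l S hl hN hc hS hr
      exact H K _ l hK hl (by omega) ⟨S, hc, hS, rfl, hr⟩)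
    exact ⟨l, hl, by omega, h⟩
  tfae_have 3 → 4 := by
    rintro H F₀ F l h0 hl - ⟨S, -, -, -, h⟩ hF hψ
    exact H F (hfd l _ F₀ F h0 hl h) hF hψ
  tfae_have 4 → 1 := by
    intro H K hK
    have hQK : FiniteDimensional ℚ K := Module.Finite.trans k K
    have hNF : NumberField K := { to_charZero := inferInstance, to_finiteDimensional := hQK }
    refine eq_zero_of_large _ fun N => ?_
    obtain ⟨l, hl, hN, h⟩ := Pool.Agent.TH995.Rad.step' hD' K hK
      (N + φ K + 3 + ∑ r ∈ Finset.range (realPlaces K + 1), ψ r) (by
      intro l S hl hN hc hS hr hrig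
      have hodd : Odd l := hl.odd_of_ne_two (by omega)
      have h1 : realPlaces (Pool.Agent.TH995.Rad.adjS K (S : Set (AlgebraicClosure k))) ≤
          realPlaces K :=
        Pool.Agent.TH995.Rad.nreal_adjS' hNF hodd hS
      refine H K _ l hK hl (by omega) ⟨S, hc, hS, rfl, hr⟩ hrig ?_
      have h2 : ψ (realPlaces (Pool.Agent.TH995.Rad.adjS K (S : Set (AlgebraicClosure k)))) ≤
          ∑ r ∈ Finset.range (realPlaces K + 1), ψ r :=
        Finset.single_le_sum (f := ψ) (fun _ _ => Nat.zero_le _)
          (Finset.mem_range.2 (Nat.lt_succ_of_le h1))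
      have h3 : l ≤ l ^ S.card := by
        rcases hc with hc | hc <;> rw [hc]
        · rw [pow_one]
        · nlinarith [hl.pos]
      have h4 : 0 < Module.finrank k K := Module.finrank_pos
      rw [hr]
      nlinarith [Nat.le_mul_of_pos_right (l ^ S.card) h4])
    exact ⟨l, hl, by omega, h⟩
  tfae_finish

end Pool.Agent.Results.MP_02f36d_nt.RadicalExtensions
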